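import Mathlib
import Pool.Agent.Helper826.Kap.Defs

/-! Wreath products inside groups whose augmentation ideal is the Jacobson radical. -/

set_option autoImplicit false

namespace Pool.Agent.H202Kap

open MonoidAlgebra Pool.Agent.Helper826.Kap

/-- pairing of an element of the group algebra with a function on the group -/
noncomputable def pair {K : Type} [Field K] {G : Type} [Group G] (c : G → K)
    (y : MonoidAlgebra K G) : K := y.coeff.sum fun g r => r * c g

section pair
variable {K : Type} [Field K] {G : Type} [Group G]

theorem pair_add (c : G → K) (x y : MonoidAlgebra K G) : pair c (x + y) = pair c x + pair c y := by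
  unfold pair
  rw [coeff_add]
  exact Finsupp.sum_add_index' (fun _ => zero_mul _) (fun _ _ _ => add_mul _ _ _)

theorem pair_zero (c : G → K) : pair c (0 : MonoidAlgebra K G) = 0 := by
  unfold pair
  simp

theorem pair_single (c : G → K) (g : G) (r : K) : pair c (single g r) = r * c g := by
  unfold pair
  rw [coeff_single, Finsupp.sum_single_index (zero_mul _)]

theorem pair_neg (c : G → K) (x : MonoidAlgebra K G) : pair c (-x) = - pair c x := by
  have h := pair_add c x (-x)
  rw [add_neg_cancel, pair_zero] at h
  exact (neg_eq_of_add_eq_zero_right h.symm).symm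

theorem pair_sub (c : G → K) (x y : MonoidAlgebra K G) : pair c (x - y) = pair c x - pair c y := by
  rw [sub_eq_add_neg, pair_add, pair_neg, sub_eq_add_neg]

theorem pair_sum {ι : Type} (c : G → K) (s : Finset ι) (f : ι → MonoidAlgebra K G) :
    pair c (∑ i ∈ s, f i) = ∑ i ∈ s, pair c (f i) := by
  classical
  induction s using Finset.induction_on with
  | empty => simp [pair_zero]
  | insert a s ha ih => rw [Finset.sum_insert ha, Finset.sum_insert ha, pair_add, ih]

theorem pair_mul (c : G → K) (g : G) (y : MonoidAlgebra K G) :
    pair c (single g 1 * y) = pair (fun h => c (g * h)) y := by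
  induction y using MonoidAlgebra.induction_linear with
  | zero => rw [mul_zero, pair_zero, pair_zero]
  | add a b ha hb => rw [mul_add, pair_add, pair_add, ha, hb]
  | single h r => rw [single_mul_single, pair_single, pair_single, one_mul]

theorem pair_ne_zero (c : G → K) (y : MonoidAlgebra K G) (h : pair c y ≠ 0) :
    ∃ g ∈ y.coeff.support, c g ≠ 0 := by
  by_contra hcon
  push Not at hcon
  apply h
  unfold pair
  rw [Finsupp.sum]
  exact Finset.sum_eq_zero fun g hg => by rw [hcon g hg, mul_zero]

theorem pair_congr (c c' : G → K) (h : ∀ g, c g = c' g) (y : MonoidAlgebra K G) :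
    pair c y = pair c' y := by
  have : c = c' := funext h
  rw [this]

theorem pair_addc (c c' : G → K) (y : MonoidAlgebra K G) :
    pair (fun g => c g + c' g) y = pair c y + pair c' y := by
  unfold pair
  rw [Finsupp.sum, Finsupp.sum, Finsupp.sum, ← Finset.sum_add_distrib]
  exact Finset.sum_congr rfl fun g _ => mul_add _ _ _

theorem pair_zeroc (y : MonoidAlgebra K G) : pair (fun _ => (0 : K)) y = 0 := by
  unfold pair
  rw [Finsupp.sum]
  exact Finset.sum_eq_zero fun g _ => mul_zero _

end pair

/-- products of geodesic words -/
def Geo {Q : Type} [Group Q] (T : Finset Q) (l : List Q) : Prop :=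
  (∀ x ∈ l, x ∈ T) ∧ ∀ l' : List Q, (∀ x ∈ l', x ∈ T) → l'.prod = l.prod → l.length ≤ l'.length

theorem Geo.tail {Q : Type} [Group Q] {T : Finset Q} {s : Q} {l : List Q} (h : Geo T (s :: l)) :
    Geo T l := by
  refine ⟨fun x hx => h.1 x (List.mem_cons_of_mem _ hx), fun l' hl' hp => ?_⟩
  have h1 := h.2 (s :: l') (fun x hx => by
    rcases List.mem_cons.1 hx with rfl | hx
    · exact h.1 _ List.mem_cons_self
    · exact hl' x hx) (by rw [List.prod_cons, List.prod_cons, hp])
  simpa using h1

open Classical in
/-- the vertices of the path of a word, without the last one -/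
noncomputable def Pset {Q : Type} [Group Q] : List Q → Finset Q
  | [] => ∅
  | s :: l => insert 1 ((Pset l).image (fun x => s * x))

theorem mem_Pset {Q : Type} [Group Q] (l : List Q) : ∀ v ∈ Pset l, ∃ l1 l2 : List Q,
    l = l1 ++ l2 ∧ v = l1.prod := by
  classical
  induction l with
  | nil => intro v hv; simp [Pset] at hv
  | cons s l ih =>
    intro v hv
    rw [Pset, Finset.mem_insert, Finset.mem_image] at hv
    rcases hv with rfl | ⟨w, hw, rfl⟩
    · exact ⟨[], s :: l, rfl, rfl⟩
    · obtain ⟨l1, l2, rfl, rfl⟩ := ih w hw
      exact ⟨s :: l1, l2, rfl, by rw [List.prod_cons]⟩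

open Classical in
/-- the combinatorial core -/
theorem geo_eval {K : Type} [Field K] {Q : Type} [Group Q] (T : Finset Q)
    (m : Finset Q → Q → K)
    (h0 : ∀ q, m ∅ q = if q = 1 then 1 else 0)
    (h1 : ∀ P q, P.Nonempty → (1 : Q) ∉ P → m P q = 0)
    (h2 : ∀ P q, (1 : Q) ∈ P → m P q = ∑ s ∈ T, m ((P.erase 1).image (fun x => s⁻¹ * x)) (s⁻¹ * q))
    (l : List Q) (hl : Geo T l) : m (Pset l) l.prod = 1 := by
  classical
  induction l with
  | nil => rw [Pset, List.prod_nil, h0, if_pos rfl]
  | cons s l ih =>
    have hs : s ∈ T := hl.1 _ List.mem_cons_self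
    have hmem : (1 : Q) ∈ Pset (s :: l) := by
      rw [Pset]; exact Finset.mem_insert_self _ _
    have hno : (1 : Q) ∉ (Pset l).image (fun x => s * x) := by
      intro h
      obtain ⟨v, hv, hv1⟩ := Finset.mem_image.1 h
      obtain ⟨l1, l2, rfl, rfl⟩ := mem_Pset l v hv
      have h3 := hl.2 l2 (fun x hx => hl.1 x (by simp [hx])) (by
        rw [List.prod_cons, List.prod_append, ← mul_assoc, hv1, one_mul])
      simp only [List.length_cons, List.length_append] at h3
      omega
    have herase : (Pset (s :: l)).erase 1 = (Pset l).image (fun x => s * x) := by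
      rw [Pset]
      exact Finset.erase_insert hno
    rw [h2 _ _ hmem, herase, Finset.sum_eq_single s]
    · have e1 : ((Pset l).image (fun x => s * x)).image (fun x => s⁻¹ * x) = Pset l := by
        rw [Finset.image_image]
        conv_rhs => rw [← Finset.image_id (s := Pset l)]
        apply Finset.image_congr
        intro x _
        simp
      rw [e1, List.prod_cons, inv_mul_cancel_left]
      exact ih hl.tail
    · intro t ht hts
      by_cases hnil : l = []
      · subst hnil
        have e2 : ((Pset ([] : List Q)).image (fun x => s * x)).image (fun x => t⁻¹ * x) = ∅ := by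
          simp [Pset]
        rw [e2, h0, if_neg]
        intro h
        apply hts
        have h3 : t⁻¹ * s = 1 := by simpa using h
        exact (inv_mul_eq_one.1 h3)
      · apply h1
        · obtain ⟨s', l', rfl⟩ := List.exists_cons_of_ne_nil hnil
          rw [Pset]
          exact (((Finset.insert_nonempty _ _).image _).image _)
        · intro h
          obtain ⟨w, hw, hw1⟩ := Finset.mem_image.1 h
          obtain ⟨v, hv, rfl⟩ := Finset.mem_image.1 hw
          obtain ⟨l1, l2, rfl, rfl⟩ := mem_Pset l v hv
          have htv : t = s * l1.prod := (inv_mul_eq_one.1 hw1)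
          by_cases hl1 : l1 = []
          · subst hl1
            apply hts
            rw [htv]; simp
          · have h3 := hl.2 (t :: l2) (fun x hx => by
              rcases List.mem_cons.1 hx with rfl | hx
              · exact ht
              · exact hl.1 x (by simp [hx])) (by
              rw [List.prod_cons, List.prod_cons, List.prod_append, htv, mul_assoc])
            have h4 : 0 < l1.length := List.length_pos_iff.2 hl1
            simp only [List.length_cons, List.length_append] at h3
            omega
    · intro h
      exact absurd hs h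

end Pool.Agent.H202Kap
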