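import Mathlib
import Pool.Agent.H202Kap.A

/-! Wreath products inside groups whose augmentation ideal is the Jacobson radical, part 2. -/

set_option autoImplicit false

namespace Pool.Agent.H202Kap

open MonoidAlgebra Pool.Agent.Helper826.Kap

section kap
variable {D : Type} [Group D]

open Classical in
/-- the additive character `a ^ k ↦ k` -/
noncomputable def kap (K : Type) [Field K] (a d : D) : K :=
  if h : ∃ k : ℤ, a ^ k = d then ((h.choose : ℤ) : K) else 0

theorem kap_zpow (K : Type) [Field K] (a : D) (ha : (orderOf a : K) = 0) (k : ℤ) :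
    kap K a (a ^ k) = (k : K) := by
  unfold kap
  have h : ∃ j : ℤ, a ^ j = a ^ k := ⟨k, rfl⟩
  rw [dif_pos h]
  have h1 := h.choose_spec
  rw [zpow_eq_zpow_iff_modEq] at h1
  obtain ⟨c, hc⟩ := (Int.modEq_iff_dvd.1 h1)
  have h2 : (k : ℤ) = h.choose + (orderOf a : ℤ) * c := by linarith
  conv_rhs => rw [h2]
  push_cast
  rw [ha]
  ring

theorem kap_one (K : Type) [Field K] (a : D) (ha : (orderOf a : K) = 0) :
    kap K a (1 : D) = 0 := by
  have := kap_zpow K a ha 0
  rw [zpow_zero] at this
  rw [this]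
  norm_num

theorem kap_mul (K : Type) [Field K] (a d : D) (ha : (orderOf a : K) = 0)
    (hd : ∃ k : ℤ, a ^ k = d) : kap K a (a * d) = kap K a d + 1 := by
  obtain ⟨k, rfl⟩ := hd
  have h1 : a * a ^ k = a ^ (k + 1) := by rw [zpow_add, zpow_one]; exact (Commute.zpow_right (Commute.refl a) k).eq
  rw [h1, kap_zpow K a ha, kap_zpow K a ha]
  push_cast
  ring

theorem pow_mem_iff (a d : D) : (∃ k : ℤ, a ^ k = a * d) ↔ ∃ k : ℤ, a ^ k = d := by
  constructor
  · rintro ⟨k, hk⟩
    refine ⟨-1 + k, ?_⟩
    rw [zpow_add, hk, zpow_neg, zpow_one, inv_mul_cancel_left]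
  · rintro ⟨k, rfl⟩
    refine ⟨1 + k, ?_⟩
    rw [zpow_add, zpow_one]

end kap

section cc
variable {D Q : Type} [Group D] [Group Q]

open Classical in
/-- coefficient functions -/
noncomputable def cc (K : Type) [Field K] (a : D) (P : Finset Q) (q : Q) (w : Wr D Q) : K :=
  if w.1.right = q ∧ ∀ x, ∃ k : ℤ, a ^ k = w.1.left x then ∏ x ∈ P, kap K a (w.1.left x) else 0

theorem cc_right (K : Type) [Field K] (a : D) (P : Finset Q) (q : Q) (w : Wr D Q)
    (h : cc K a P q w ≠ 0) : w.1.right = q := by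
  classical
  by_contra hcon
  apply h
  unfold cc
  rw [if_neg]
  intro h1
  exact hcon h1.1

open Classical in
theorem cc_one_empty (K : Type) [Field K] (a : D) (q : Q) :
    cc K a (∅ : Finset Q) q (1 : Wr D Q) = if q = 1 then 1 else 0 := by
  unfold cc
  have h1 : (1 : Wr D Q).1.right = 1 := rfl
  have h2 : ∀ x, (1 : Wr D Q).1.left x = 1 := fun _ => rfl
  by_cases hq : q = 1
  · rw [if_pos hq, if_pos ⟨by rw [h1, hq], fun x => ⟨0, by rw [h2, zpow_zero]⟩⟩,
      Finset.prod_empty]
  · rw [if_neg hq, if_neg]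
    rintro ⟨h3, -⟩
    rw [h1] at h3
    exact hq h3.symm

theorem cc_one_nonempty (K : Type) [Field K] (a : D) (ha : (orderOf a : K) = 0) (P : Finset Q)
    (hP : P.Nonempty) (q : Q) : cc K a P q (1 : Wr D Q) = 0 := by
  classical
  unfold cc
  split_ifs with h
  · obtain ⟨x, hx⟩ := hP
    refine Finset.prod_eq_zero hx ?_
    have h2 : (1 : Wr D Q).1.left x = 1 := rfl
    rw [h2, kap_one K a ha]
  · rfl

open Classical in
theorem cc_top (K : Type) [Field K] (a : D) (P : Finset Q) (q s : Q) (w : Wr D Q) :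
    cc K a P q (top s * w) = cc K a (P.image (fun x => s⁻¹ * x)) (s⁻¹ * q) w := by
  have hl : ∀ x, (top s * w).1.left x = w.1.left (s⁻¹ * x) := by
    intro x
    rw [left_mul, left_top, right_top, one_mul]
  have hr : (top s * w).1.right = s * w.1.right := by rw [right_mul, right_top]
  unfold cc
  have hiff : ((top s * w).1.right = q ∧ ∀ x, ∃ k : ℤ, a ^ k = (top s * w).1.left x) ↔
      (w.1.right = s⁻¹ * q ∧ ∀ x, ∃ k : ℤ, a ^ k = w.1.left x) := by
    rw [hr]
    constructor
    · rintro ⟨h1, h2⟩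
      refine ⟨by rw [← h1, inv_mul_cancel_left], fun x => ?_⟩
      obtain ⟨k, hk⟩ := h2 (s * x)
      refine ⟨k, ?_⟩
      rw [hk, hl, inv_mul_cancel_left]
    · rintro ⟨h1, h2⟩
      refine ⟨by rw [h1, mul_inv_cancel_left], fun x => ?_⟩
      obtain ⟨k, hk⟩ := h2 (s⁻¹ * x)
      exact ⟨k, by rw [hk, hl]⟩
  by_cases hc : (w.1.right = s⁻¹ * q ∧ ∀ x, ∃ k : ℤ, a ^ k = w.1.left x)
  · rw [if_pos hc, if_pos (hiff.2 hc), Finset.prod_image]
    · exact Finset.prod_congr rfl fun x _ => by rw [hl]
    · intro x _ y _ hxy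
      exact mul_left_cancel hxy
  · rw [if_neg hc, if_neg (fun h => hc (hiff.1 h))]

open Classical in
theorem cc_base (K : Type) [Field K] (a : D) (ha : (orderOf a : K) = 0) (P : Finset Q) (q : Q)
    (w : Wr D Q) : cc K a P q (base a * w) =
      cc K a P q w + if (1 : Q) ∈ P then cc K a (P.erase 1) q w else 0 := by
  have hl1 : (base a * w).1.left 1 = a * w.1.left 1 := by
    rw [left_mul, left_base_one, right_base, inv_one, one_mul]
  have hl : ∀ x, x ≠ 1 → (base a * w).1.left x = w.1.left x := by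
    intro x hx
    rw [left_mul, left_base_ne a hx, right_base, inv_one, one_mul, one_mul]
  have hr : (base a * w).1.right = w.1.right := by rw [right_mul, right_base, one_mul]
  have hiff : ((base a * w).1.right = q ∧ ∀ x, ∃ k : ℤ, a ^ k = (base a * w).1.left x) ↔
      (w.1.right = q ∧ ∀ x, ∃ k : ℤ, a ^ k = w.1.left x) := by
    rw [hr]
    refine and_congr Iff.rfl (forall_congr' fun x => ?_)
    by_cases hx : x = 1
    · subst hx
      rw [hl1]
      exact pow_mem_iff a _
    · rw [hl x hx]
  unfold cc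
  by_cases hc : (w.1.right = q ∧ ∀ x, ∃ k : ℤ, a ^ k = w.1.left x)
  · rw [if_pos hc, if_pos (hiff.2 hc)]
    by_cases h1 : (1 : Q) ∈ P
    · rw [if_pos h1, if_pos hc, ← Finset.mul_prod_erase P _ h1, ← Finset.mul_prod_erase P _ h1,
        hl1, kap_mul K a _ ha (hc.2 1)]
      have e1 : ∏ x ∈ P.erase 1, kap K a ((base a * w).1.left x)
          = ∏ x ∈ P.erase 1, kap K a (w.1.left x) :=
        Finset.prod_congr rfl fun x hx => by rw [hl x (Finset.ne_of_mem_erase hx)]
      rw [e1]
      ring
    · rw [if_neg h1, add_zero]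
      exact Finset.prod_congr rfl fun x hx => by
        rw [hl x (fun h => h1 (h ▸ hx))]
  · rw [if_neg hc, if_neg (fun h => hc (hiff.1 h))]
    split_ifs <;> simp

end cc

section ext
variable {K : Type} [Field K] {G H : Type} [Group G] [Group H]

open Classical in
/-- extension by zero along a homomorphism -/
noncomputable def ext (φ : H →* G) (c : H → K) (g : G) : K :=
  if h : ∃ w, φ w = g then c h.choose else 0

theorem ext_apply (φ : H →* G) (hφ : Function.Injective φ) (c : H → K) (w : H) :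
    ext φ c (φ w) = c w := by
  unfold ext
  have h : ∃ v, φ v = φ w := ⟨w, rfl⟩
  rw [dif_pos h, hφ h.choose_spec]

theorem ext_not (φ : H →* G) (c : H → K) (g : G) (h : ¬ ∃ w, φ w = g) : ext φ c g = 0 := by
  unfold ext
  rw [dif_neg h]

theorem ext_mul (φ : H →* G) (hφ : Function.Injective φ) (c : H → K) (h : H) (g : G) :
    ext φ c (φ h * g) = ext φ (fun w => c (h * w)) g := by
  by_cases hg : ∃ w, φ w = g
  · obtain ⟨w, rfl⟩ := hg
    rw [← map_mul, ext_apply φ hφ, ext_apply φ hφ]
  · rw [ext_not _ _ _ hg, ext_not]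
    rintro ⟨w, hw⟩
    apply hg
    exact ⟨h⁻¹ * w, by rw [map_mul, hw, map_inv, inv_mul_cancel_left]⟩

theorem ext_add (φ : H →* G) (hφ : Function.Injective φ) (c c' : H → K) (g : G) :
    ext φ (fun w => c w + c' w) g = ext φ c g + ext φ c' g := by
  by_cases hg : ∃ w, φ w = g
  · obtain ⟨w, rfl⟩ := hg
    rw [ext_apply φ hφ, ext_apply φ hφ, ext_apply φ hφ]
  · rw [ext_not _ _ _ hg, ext_not _ _ _ hg, ext_not _ _ _ hg, add_zero]

theorem ext_zero (φ : H →* G) (g : G) : ext φ (fun _ => (0 : K)) g = 0 := by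
  unfold ext
  split_ifs <;> rfl

end ext

open Classical in
/-- geodesic words in `T` have bounded length -/
theorem geo_bounded (K : Type) [Field K] (G : Type) [Group G] (hJ : Aug K G ≤ Ideal.jacobson ⊥)
    (D Q : Type) [Group D] [Group Q] (φ : Wr D Q →* G) (hφ : Function.Injective φ)
    (a : D) (ha : (orderOf a : K) = 0) (T : Finset Q) :
    ∃ F : Finset Q, ∀ l : List Q, Geo T l → l.prod ∈ F := by
  have hX := mp_mem K φ _ (X_mem K T a)
  obtain ⟨V, hV⟩ := (isUnit_of_jacobson _ hJ _ (neg_mem hX)).exists_right_inv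
  have hXe : mp K φ (X K T a) = ∑ s ∈ T, (single (φ (base a * top s)) (1 : K)
      - single (φ (top s)) 1) := by
    unfold X
    rw [map_sum]
    refine Finset.sum_congr rfl fun s _ => ?_
    rw [map_sub, mp_single, mp_single]
  have hV' : V = 1 + mp K φ (X K T a) * V := by
    have h1 : V - mp K φ (X K T a) * V = 1 := by
      rw [← hV, add_mul, one_mul, neg_mul, sub_eq_add_neg]
    rw [← h1]; abel
  let m : Finset Q → Q → K := fun P q => pair (ext φ (cc K a P q)) V
  have hrec : ∀ P q, m P q = cc K a P q 1 + if (1 : Q) ∈ P then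
      ∑ s ∈ T, m ((P.erase 1).image (fun x => s⁻¹ * x)) (s⁻¹ * q) else 0 := by
    intro P q
    have h1 : m P q = pair (ext φ (cc K a P q)) (1 + mp K φ (X K T a) * V) := by
      show pair (ext φ (cc K a P q)) V = _
      conv_lhs => rw [hV']
    rw [h1, pair_add, hXe, Finset.sum_mul, pair_sum]
    congr 1
    · rw [one_def, pair_single, one_mul, ← map_one φ, ext_apply φ hφ]
    · have hterm : ∀ s ∈ T, pair (ext φ (cc K a P q))
          ((single (φ (base a * top s)) (1 : K) - single (φ (top s)) 1) * V) =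
          if (1 : Q) ∈ P then m ((P.erase 1).image (fun x => s⁻¹ * x)) (s⁻¹ * q) else 0 := by
        intro s _
        rw [sub_mul, pair_sub, pair_mul, pair_mul]
        have e1 : ∀ g, ext φ (cc K a P q) (φ (base a * top s) * g) =
            ext φ (cc K a P q) (φ (top s) * g) +
            ext φ (fun w => if (1 : Q) ∈ P then
              cc K a ((P.erase 1).image (fun x => s⁻¹ * x)) (s⁻¹ * q) w else 0) g := by
          intro g
          rw [ext_mul φ hφ, ext_mul φ hφ, ← ext_add φ hφ]
          congr 1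
          funext w
          rw [mul_assoc, cc_base K a ha]
          congr 1
          by_cases h1 : (1 : Q) ∈ P
          · rw [if_pos h1, if_pos h1, cc_top]
          · rw [if_neg h1, if_neg h1]
        rw [pair_congr _ _ e1, pair_addc, add_sub_cancel_left]
        by_cases h1 : (1 : Q) ∈ P
        · simp only [if_pos h1]
          rfl
        · simp only [if_neg h1]
          rw [pair_congr _ _ (ext_zero φ), pair_zeroc]
      rw [Finset.sum_congr rfl hterm]
      by_cases h1 : (1 : Q) ∈ P
      · simp only [if_pos h1]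
      · simp only [if_neg h1, Finset.sum_const_zero]
  let F : Finset Q := V.coeff.support.image fun g =>
    if h : ∃ w, φ w = g then h.choose.1.right else 1
  refine ⟨F, fun l hl => ?_⟩
  have hm1 : m (Pset l) l.prod = 1 := by
    refine geo_eval T m ?_ ?_ ?_ l hl
    · intro q
      rw [hrec, cc_one_empty, if_neg (Finset.notMem_empty _), add_zero]
    · intro P q hP h1
      rw [hrec, cc_one_nonempty K a ha P hP, if_neg h1, add_zero]
    · intro P q h1
      rw [hrec, cc_one_nonempty K a ha P ⟨1, h1⟩, if_pos h1, zero_add]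
  have hm2 : pair (ext φ (cc K a (Pset l) l.prod)) V ≠ 0 := by
    show m (Pset l) l.prod ≠ 0
    rw [hm1]
    exact one_ne_zero
  obtain ⟨g, hg, hg0⟩ := pair_ne_zero _ _ hm2
  refine Finset.mem_image.2 ⟨g, hg, ?_⟩
  by_cases hw : ∃ w, φ w = g
  · rw [dif_pos hw]
    have h3 : ext φ (cc K a (Pset l) l.prod) g = cc K a (Pset l) l.prod hw.choose := by
      conv_lhs => rw [← hw.choose_spec]
      rw [ext_apply φ hφ]
    rw [h3] at hg0
    exact cc_right K a _ _ _ hg0
  · exact absurd (ext_not _ _ _ hw) hg0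

end Pool.Agent.H202Kap
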