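import Mathlib
import Pool.Agent.H202Kap.B

/-! Wreath products inside groups whose augmentation ideal is the Jacobson radical, part 3. -/

set_option autoImplicit false

namespace Pool.Agent.H202Kap

open MonoidAlgebra Pool.Agent.Helper826.Kap

theorem base_mul {D Q : Type} [Group D] [Group Q] (a b : D) :
    (base (a * b) : Wr D Q) = base a * base b := by
  apply Subtype.ext
  apply RegularWreathProduct.ext
  · funext x
    show (base (a * b) : Wr D Q).1.left x = (base a * base b : Wr D Q).1.left x
    rw [left_mul, right_base, inv_one, one_mul]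
    by_cases hx : x = 1
    · subst hx
      rw [left_base_one, left_base_one, left_base_one]
    · rw [left_base_ne _ hx, left_base_ne _ hx, left_base_ne _ hx, one_mul]
  · show (base (a * b) : Wr D Q).1.right = (base a * base b : Wr D Q).1.right
    rw [right_mul, right_base, right_base, right_base, one_mul]

/-- the base embedding -/
noncomputable def baseHom (D Q : Type) [Group D] [Group Q] : D →* Wr D Q :=
  MonoidHom.mk' (fun a => (base a : Wr D Q)) (fun a b => base_mul a b)

theorem baseHom_injective (D Q : Type) [Group D] [Group Q] :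
    Function.Injective (baseHom D Q) := by
  intro a b h
  have h1 : (base a : Wr D Q).1.left 1 = (base b : Wr D Q).1.left 1 := by
    have : (base a : Wr D Q) = base b := h
    rw [this]
  rwa [left_base_one, left_base_one] at h1

theorem exists_char (K : Type) [Field K] (G : Type) [Group G] (hJ : Aug K G ≤ Ideal.jacobson ⊥)
    (D : Type) [Group D] [Nontrivial D] (ψ : D →* G) (hψ : Function.Injective ψ) :
    ∃ a : D, (orderOf a : K) = 0 := by
  obtain ⟨d, hd⟩ := exists_ne (1 : D)
  by_cases h0 : orderOf d = 0
  · exact ⟨d, by rw [h0]; norm_num⟩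
  · have hd1 : orderOf d ≠ 1 := fun h => hd (orderOf_eq_one_iff.1 h)
    obtain ⟨q, hq, hqd⟩ := Nat.exists_prime_and_dvd hd1
    have hord : orderOf (d ^ (orderOf d / q)) = q := orderOf_pow_orderOf_div h0 hqd
    refine ⟨d ^ (orderOf d / q), ?_⟩
    rw [hord]
    refine prime_order K G hJ (ψ (d ^ (orderOf d / q))) q hq ?_
    rw [orderOf_injective ψ hψ, hord]

theorem locFin_top (K : Type) [Field K] (G : Type) [Group G] (hJ : Aug K G ≤ Ideal.jacobson ⊥)
    (D Q : Type) [Group D] [Nontrivial D] [Group Q] (φ : Wr D Q →* G)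
    (hφ : Function.Injective φ) (S : Finset Q) : Finite (Subgroup.closure (S : Set Q)) := by
  classical
  obtain ⟨a, ha⟩ := exists_char K G hJ D (φ.comp (baseHom D Q))
    (hφ.comp (baseHom_injective D Q))
  let T : Finset Q := S ∪ S.image (fun s => s⁻¹)
  obtain ⟨F, hF⟩ := geo_bounded K G hJ D Q φ hφ a ha T
  have hsub : ((Subgroup.closure (S : Set Q) : Subgroup Q) : Set Q) ⊆ (F : Set Q) := by
    intro q hq
    have hq' : q ∈ Submonoid.closure ((S : Set Q) ∪ (S : Set Q)⁻¹) := by
      rw [← Subgroup.closure_toSubmonoid]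
      exact hq
    obtain ⟨l, hl, hlp⟩ := Submonoid.exists_list_of_mem_closure hq'
    have hlT : ∀ x ∈ l, x ∈ T := by
      intro x hx
      rcases hl x hx with h | h
      · exact Finset.mem_union_left _ (Finset.mem_coe.1 h)
      · exact Finset.mem_union_right _ (Finset.mem_image.2
          ⟨x⁻¹, Finset.mem_coe.1 (Set.mem_inv.1 h), inv_inv x⟩)
    have hex : ∃ n, ∃ l : List Q, (∀ x ∈ l, x ∈ T) ∧ l.prod = q ∧ l.length = n :=
      ⟨l.length, l, hlT, hlp, rfl⟩
    obtain ⟨l0, h1, h2, h3⟩ := Nat.find_spec hex
    have hgeo : Geo T l0 := by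
      refine ⟨h1, fun l' hl' hp => ?_⟩
      rw [h3]
      exact Nat.find_min' hex ⟨l', hl', by rw [hp, h2], rfl⟩
    have := hF l0 hgeo
    rw [h2] at this
    exact this
  exact (F.finite_toSet.subset hsub).to_subtype

end Pool.Agent.H202Kap
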